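import Pool.Agent.Helper53.UV.Par
import Pool.Agent.Helper14.BR.RUNC
import Pool.Agent.Helper35.BR.CODE
import Pool.Agent.Helper12.BR.WORD
import Pool.Agent.Helper69.BR.SIZ
import Pool.Agent.Helper96.BR.PAR

/-!
# PROJECT UR2 (MP_c578c8_lc), goal FNV: the question describes the machine
-/

namespace Pool.Agent.Helper47.UV

open Pool.Agent.Helper65.LinSpace Pool.Agent.Helper78.Mpc Pool.Agent.Helper28.Ram Finset Filter
open Pool.Agent.Helper65.BR
open Pool.Agent.Helper28.Long (ZL)
open Pool.Agent.Helper53.UR (betU KU WithinU)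
open Pool.Agent.Helper53.UV
open Pool.Agent.Helper53.CTG (ev)

/-- The number of a short word is small. -/
theorem num_lt {w : List Bool} {S : ℕ} (h : w.length ≤ S) : num w < 2 ^ (S + 1) := by
  have h1 : Nat.log 2 (num w) = w.length := Pool.Agent.Helper65.LinSpace.log_num w
  have h2 : num w < 2 ^ (Nat.log 2 (num w) + 1) := Nat.lt_pow_succ_log_self (by norm_num) _
  rw [h1] at h2
  exact h2.trans_le (Nat.pow_le_pow_right (by norm_num) (by omega))

theorem accN_eq_zero {w : List Bool} (h : ¬ w.head? = some true) : accN (num w) = 0 := by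
  have h1 := accN_le (num w)
  have h2 : ¬ accN (num w) = 1 := fun h3 => h ((accN_num w).1 h3)
  omega

theorem accN_zero : accN 0 = 0 := by
  unfold accN
  simp

theorem ZL_le' (n : ℕ) : ZL n ≤ n := Pool.Agent.Helper28.Long.ZL_le n

theorem lt01_ne {a b : ℕ} (h : lt01 a b ≠ 0) : a < b := by
  unfold lt01 at h
  by_contra h2
  exact h (if_neg h2)

theorem capN_of_lt {S v : ℕ} (h : v < 2 ^ (S + 1)) : capN S v = v := by
  unfold capN
  have h1 : ¬ S < Nat.log 2 v := by
    intro h2
    rcases Nat.eq_zero_or_pos v with h3 | h3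
    · rw [h3, Nat.log_zero_right] at h2
      omega
    · have := Nat.log_lt_of_lt_pow h3.ne' h
      omega
  rw [lt01, if_neg h1, ifz_zero]

/-- contents are small -/
theorem cont_lt {m : Pool.Agent.Helper65.BR.Mach} (hm : m.Ok) (k x : ℕ) : (m.conf k).2 x < 2 ^ m.a := by
  cases k with
  | zero => exact hm.hM0 x
  | succ k => exact hm.hW _ _ _ _

/-- accepting states stay -/
theorem acc_stay (P : Prm) (r : ℕ) (h1 : accN (P.run r).1 ≠ 0) (h2 : (P.run r).1 < 2 ^ (P.S + 1)) :
    ∀ i, r ≤ i → (P.run i).1 = (P.run r).1 := by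
  intro i hi
  induction i, hi using Nat.le_induction with
  | base => rfl
  | succ i hi ih =>
    show P.nxN (P.run i).1 _ = _
    unfold Prm.nxN
    rw [ih, ifz_ne h1, capN_of_lt h2]

theorem setup (hV : VMC_stmt)
    (hTR : ∀ (m : RM) (e K b c : ℕ), TOk m e K b c →
      ev (tb m e (K * (e + 3)) b) (e + 3) c (K * (e + 3)) 1 0 = (m.conf (K * 2 ^ e)).1)
    (hP : ParOK) (A : BM) (ty : ℕ) (hty : ty < 2) : ∃ e n₀ : ℕ, ∀ w y : List Bool, n₀ ≤ w.length →
    (∀ T < NFV (num w), accV e (num w) (num y) T ≠ 0 → ∃ p r, A.AcceptsAt w y p r) ∧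
    ∀ (p : List Bool) (r s m a g T : ℕ), A.AcceptsAt w y p r → (∀ t < r, ¬ A.AcceptsAt w y p t) →
      p.length ≤ s → A.Fits w y p r s m a → (ty = 0 → g = a) →
      (ty ≠ 0 → ∀ t < r, (A.blk (A.conf w y p t).1).head? = some true →
        num (A.conf w y p (t + 1)).1 / 2 ^ g = num (A.conf w y p t).1 / 2 ^ g) →
      T < (w.length + 2) ^ 4 → bT w.length T 0 = s → bT w.length T 1 = a → bT w.length T 2 = m →
      bT w.length T 3 = g → okV w.length T = 1 →
      A.reads w y p r ≤ KU w.length T * 2 ^ eV w.length T →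
      ∃ T < NFV (num w), accV e (num w) (num y) T ≠ 0 := by
  have hR := Pool.Agent.Helper14.BR.runc
  have hW := Pool.Agent.Helper12.BR.WORD
  obtain ⟨eS, eA, eB, eN, eW, c, hc⟩ := Pool.Agent.Helper35.BR.CODE A
  obtain ⟨n₀, hn₀⟩ := eventually_atTop.1 (Pool.Agent.Helper69.BR.siz c)
  obtain ⟨e, he⟩ : ∃ e, e = Nat.pair (Nat.pair eS eA) (Nat.pair eB (Nat.pair eN eW)) := ⟨_, rfl⟩
  refine ⟨2 * e + ty, n₀, fun w y hw => ?_⟩
  have hlog : Nat.log 2 (num w) = w.length := Pool.Agent.Helper65.LinSpace.log_num w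
  have hdiv : (2 * e + ty) / 2 = e := by omega
  have hmod : (2 * e + ty) % 2 = ty := by omega
  -- the parameters
  have pS : ∀ T p, (prm e (num w) (num y) T p).S = bT w.length T 0 := fun T p => by
    show bT (Nat.log 2 (num w)) T 0 = _
    rw [hlog]
  have pH : ∀ T p, (prm e (num w) (num y) T p).H = bT w.length T 1 := fun T p => by
    show bT (Nat.log 2 (num w)) T 1 = _
    rw [hlog]
  have pZ : ∀ T p, (prm e (num w) (num y) T p).Z = bT w.length T 2 := fun T p => by
    show bT (Nat.log 2 (num w)) T 2 = _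
    rw [hlog]
  have pΛ : ∀ T p, (prm e (num w) (num y) T p).Λ = LW w.length := fun T p => by
    show LW (Nat.log 2 (num w)) = _
    rw [hlog]
  have pβ : ∀ T p, (prm e (num w) (num y) T p).β = 2 ^ (2 * ll w.length) := fun T p => by
    show 2 ^ (2 * ll (Nat.log 2 (num w))) = _
    rw [hlog]
  have hcod : ∀ T p, CodB A (prm e (num w) (num y) T p) := by
    intro T p
    obtain ⟨h1, h2, h3⟩ := hn₀ w.length (by omega) (bT w.length T 0) (min_le_right _ _)
      (bT w.length T 1) (min_le_right _ _) (bT w.length T 2) (min_le_right _ _)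
    obtain ⟨h4, h5, h6⟩ := h3 (num w) hlog
    refine hc _ ?_ ?_ ?_ ?_ ?_ ?_ ?_ ?_ ?_ ?_
    · show (Nat.unpair (Nat.unpair e).1).1 = eS
      rw [he]
      simp only [Nat.unpair_pair]
    · show (Nat.unpair (Nat.unpair e).1).2 = eA
      rw [he]
      simp only [Nat.unpair_pair]
    · show (Nat.unpair (Nat.unpair e).2).1 = eB
      rw [he]
      simp only [Nat.unpair_pair]
    · show (Nat.unpair (Nat.unpair (Nat.unpair e).2).2).1 = eN
      rw [he]
      simp only [Nat.unpair_pair]
    · show (Nat.unpair (Nat.unpair (Nat.unpair e).2).2).2 = eW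
      rw [he]
      simp only [Nat.unpair_pair]
    · rw [pS, pZ, pH, pΛ]
      convert h1 using 1
    · rw [pS, pZ, pH, pΛ, pβ]
      convert h2 using 1
    · rw [pS]
      exact h4
    · rw [pZ]
      exact h5
    · rw [pH]
      exact h6
  -- the simulation
  have hsim : ∀ z : Qn, okV z.n z.T ≠ 0 →
      z.val = (z.m.conf (KU z.n z.T * 2 ^ eV z.n z.T)).1 := by
    intro z hz
    exact hTR z.m (eV z.n z.T) (KU z.n z.T) z.b z.c (hP.2.2 z hz)
  constructor
  · intro T _ hne
    unfold accV at hne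
    have h0 := lt01_ne hne
    have h1 : Qn.s (2 * e + ty, num w, num y, T) (Qn.val (2 * e + ty, num w, num y, T)) ≠ 0 :=
      h0.ne'
    unfold Qn.s at h1
    have hok : okV (Qn.n (2 * e + ty, num w, num y, T)) (Qn.T (2 * e + ty, num w, num y, T)) ≠ 0 :=
      fun h => h1 (by rw [h, zero_mul])
    have hp0 : 0 < Qn.p (2 * e + ty, num w, num y, T) :=
      lt01_ne fun h => h1 (by rw [h, zero_mul, mul_zero])
    have hp1 : Qn.p (2 * e + ty, num w, num y, T) <
        2 ^ (bT (Qn.n (2 * e + ty, num w, num y, T)) (Qn.T (2 * e + ty, num w, num y, T)) 0 + 1) :=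
      lt01_ne fun h => h1 (by rw [h, zero_mul, mul_zero, mul_zero])
    have ha : accN (Qn.val (2 * e + ty, num w, num y, T)) ≠ 0 := fun h =>
      h1 (by rw [h, mul_zero, mul_zero, mul_zero])
    rw [hsim _ hok] at ha
    obtain ⟨p, hp⟩ := Pool.Agent.Helper65.LinSpace.exists_num hp0
    have hn : Qn.n (2 * e + ty, num w, num y, T) = w.length := hlog
    have hm : Qn.m (2 * e + ty, num w, num y, T) =
        vm (prm e (num w) (num y) (Qn.T (2 * e + ty, num w, num y, T)) (num p)) ty
          (bT w.length (Qn.T (2 * e + ty, num w, num y, T)) 3) := by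
      unfold Qn.m
      rw [hn, ← hp]
      show vm (prm ((2 * e + ty) / 2) (num w) (num y) _ _) ((2 * e + ty) % 2) _ = _
      rw [hdiv, hmod]
    have hpl : p.length ≤ (prm e (num w) (num y) (Qn.T (2 * e + ty, num w, num y, T)) (num p)).S := by
      rw [pS, ← Pool.Agent.Helper65.LinSpace.log_num p]
      rw [← hp, hn] at hp1
      have := Nat.log_lt_of_lt_pow (by rw [hp]; exact hp0.ne') hp1
      omega
    rw [hm] at ha
    rcases hV.snd (prm e (num w) (num y) (Qn.T (2 * e + ty, num w, num y, T)) (num p)) ty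
      (bT w.length (Qn.T (2 * e + ty, num w, num y, T)) 3)
      (KU (Qn.n (2 * e + ty, num w, num y, T)) (Qn.T (2 * e + ty, num w, num y, T)) *
        2 ^ eV (Qn.n (2 * e + ty, num w, num y, T)) (Qn.T (2 * e + ty, num w, num y, T)))
      with hcf | hcf
    · rw [hcf] at ha
      obtain ⟨j, hj⟩ := hR.snd
        (prm e (num w) (num y) (Qn.T (2 * e + ty, num w, num y, T)) (num p))
        (KU (Qn.n (2 * e + ty, num w, num y, T)) (Qn.T (2 * e + ty, num w, num y, T)) *
          2 ^ eV (Qn.n (2 * e + ty, num w, num y, T)) (Qn.T (2 * e + ty, num w, num y, T)))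
      rw [hj] at ha
      obtain ⟨t, ht⟩ := hW.snd A _ w y p (hcod _ (num p)) rfl rfl rfl hpl j ha
      exact ⟨p, t, ht⟩
    · rw [hcf] at ha
      exact absurd accN_zero ha
  · intro p r s₁ m a g T hr0 hrmin hps hfit' hg0 hg1 hT0 e0 e1 e2 e3' e3 e4
    have hpr : num p < 2 ^ (s₁ + 1) := num_lt hps
    have hs1 : s₁ ≤ w.length := by
      rw [← e0]
      exact (min_le_right _ _).trans (ZL_le' _)
    have hx : 2 ^ w.length ≤ num w := by
      rw [← hlog]
      exact Nat.pow_log_le_self 2 (Pool.Agent.Helper65.LinSpace.num_pos w).ne'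
    have hpx : num p < 2 * num w + 2 := by
      have h1 : 2 ^ (s₁ + 1) ≤ 2 ^ (w.length + 1) :=
        Nat.pow_le_pow_right (by norm_num) (by omega)
      have h2 : 2 ^ (w.length + 1) = 2 * 2 ^ w.length := by ring
      omega
    have hT' : T * (2 * num w + 2) + num p < NFV (num w) := by
      unfold NFV
      rw [hlog]
      calc T * (2 * num w + 2) + num p < T * (2 * num w + 2) + (2 * num w + 2) := by omega
        _ = (T + 1) * (2 * num w + 2) := by ring
        _ ≤ (w.length + 2) ^ 4 * (2 * num w + 2) := Nat.mul_le_mul_right _ hT0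
    refine ⟨T * (2 * num w + 2) + num p, hT', ?_⟩
    set z : Qn := (2 * e + ty, num w, num y, T * (2 * num w + 2) + num p) with hz
    have zn : z.n = w.length := hlog
    have zT : z.T = T := by
      show (T * (2 * num w + 2) + num p) / (2 * num w + 2) = T
      rw [Nat.add_comm, Nat.add_mul_div_right _ _ (by omega), Nat.div_eq_of_lt hpx, zero_add]
    have zp : z.p = num p := by
      show (T * (2 * num w + 2) + num p) % (2 * num w + 2) = num p
      rw [Nat.add_comm, Nat.add_mul_mod_self_right, Nat.mod_eq_of_lt hpx]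
    have zm : z.m = vm (prm e (num w) (num y) T (num p)) ty g := by
      show vm (prm ((2 * e + ty) / 2) (num w) (num y) z.T z.p) ((2 * e + ty) % 2) (bT z.n z.T 3) = _
      rw [zT, zp, zn, hdiv, hmod, e3']
    have hok : okV z.n z.T = 1 := by rw [zn, zT, e3]
    have hcmp := hW.cmp A (prm e (num w) (num y) T (num p)) w y p (hcod T (num p)) rfl rfl rfl
      (by rw [pS, e0]; exact hps) r (by rw [pS, pH, pZ, e0, e1, e2]; exact hfit') hrmin
    have haccr : accN ((prm e (num w) (num y) T (num p)).run r).1 ≠ 0 := by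
      rw [(hcmp r le_rfl).1]
      have := (accN_num (A.conf w y p r).1).2 hr0
      omega
    have hrun := hR.cmp (prm e (num w) (num y) T (num p)) r haccr (by
        intro j hj
        rw [(hcmp j hj.le).1]
        exact accN_eq_zero (hrmin j hj)) (KU w.length T * 2 ^ eV w.length T) (by
        refine le_trans (le_of_eq ?_) e4
        unfold BM.reads
        congr 1
        ext j
        constructor
        · rintro ⟨h1, h2⟩
          exact ⟨h1, (hcmp j h1.le).2.1 h2⟩
        · rintro ⟨h1, h2⟩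
          exact ⟨h1, (hcmp j h1.le).2.2 h2⟩)
    have hOk : (prm e (num w) (num y) T (num p)).mach.Ok :=
      (Pool.Agent.Helper96.BR.PAR e (num w) (num y) T (num p)).2
    have hvc : (vm (prm e (num w) (num y) T (num p)) ty g).conf
        (KU w.length T * 2 ^ eV w.length T) =
        (prm e (num w) (num y) T (num p)).mach.conf (KU w.length T * 2 ^ eV w.length T) := by
      refine hV.cmp _ ty g _ fun j _ hrd hac => ⟨fun h0 => ?_, fun h1 => ?_⟩
      · apply capN_of_lt
        have h2 := cont_lt hOk j ((prm e (num w) (num y) T (num p)).rdN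
          ((prm e (num w) (num y) T (num p)).mach.conf j).1)
        have h3 : (prm e (num w) (num y) T (num p)).mach.a = g + 1 := by
          show (prm e (num w) (num y) T (num p)).H + 1 = _
          rw [pH, e1, hg0 h0]
        rw [h3] at h2
        exact h2
      · obtain ⟨i, hi⟩ := hR.snd (prm e (num w) (num y) T (num p)) j
        rw [hi] at hrd hac ⊢
        have hir : i < r := by
          by_contra hir
          have hst := acc_stay (prm e (num w) (num y) T (num p)) r haccr (by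
            rw [(hcmp r le_rfl).1, pS, e0]
            exact num_lt (hfit' r le_rfl).1) i (by omega)
          rw [hst] at hac
          exact haccr hac
        have h4 := hg1 h1 i hir ((hcmp i hir.le).2.1 hrd)
        rw [← (hcmp (i + 1) hir).1, ← (hcmp i hir.le).1] at h4
        exact h4
    have hval : accN z.val ≠ 0 := by
      rw [hsim z (by rw [hok]; exact one_ne_zero), zm, zn, zT, hvc]
      exact hrun
    have hs' : z.s z.val ≠ 0 := by
      show okV z.n z.T * (lt01 0 z.p * (lt01 z.p (2 ^ (bT z.n z.T 0 + 1)) * accN z.val)) ≠ 0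
      rw [hok, zp, zn, zT, e0, lt01, if_pos (Pool.Agent.Helper65.LinSpace.num_pos p), lt01,
        if_pos hpr, one_mul, one_mul, one_mul]
      exact hval
    show lt01 0 (z.s z.val) ≠ 0
    rw [lt01, if_pos (Nat.pos_of_ne_zero hs')]
    exact one_ne_zero

/-- The smallest accepting time. -/
theorem smallest {A : BM} {w y p : List Bool} {r₁ s₁ m a : ℕ} (hacc : A.AcceptsAt w y p r₁)
    (hfit : A.Fits w y p r₁ s₁ m a) : ∃ r ≤ r₁, A.AcceptsAt w y p r ∧
      (∀ t < r, ¬ A.AcceptsAt w y p t) ∧ A.Fits w y p r s₁ m a ∧ 1 ≤ s₁ ∧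
      A.reads w y p r ≤ A.reads w y p r₁ := by
  classical
  obtain ⟨r, hr0, hrmin⟩ : ∃ r, A.AcceptsAt w y p r ∧ ∀ t < r, ¬ A.AcceptsAt w y p t := by
    have hex : ∃ r, A.AcceptsAt w y p r := ⟨r₁, hacc⟩
    exact ⟨Nat.find hex, Nat.find_spec hex, fun t ht => Nat.find_min hex ht⟩
  have hrr : r ≤ r₁ := by
    by_contra h
    exact hrmin r₁ (by omega) hacc
  have hfit' : A.Fits w y p r s₁ m a := fun t ht => hfit t (ht.trans hrr)
  refine ⟨r, hrr, hr0, hrmin, hfit', ?_, ?_⟩
  · have h1 := (hfit' _ le_rfl).1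
    have h2 : (A.conf w y p r).1 ≠ [] := by
      intro h
      unfold BM.AcceptsAt at hr0
      rw [h] at hr0
      simp at hr0
    have h3 : 0 < (A.conf w y p r).1.length := List.length_pos_iff.2 h2
    omega
  · unfold BM.reads
    apply Set.ncard_le_ncard
    · intro t ht
      exact ⟨lt_of_lt_of_le ht.1 hrr, ht.2⟩
    · exact (Set.finite_lt_nat r₁).subset fun t ht => ht.1

theorem gFNV : GoalFNV := by
  intro hV hTR hP hAS A C
  constructor
  · obtain ⟨e, n₀, h⟩ := setup hV hTR hP A 0 (by norm_num)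
    obtain ⟨n₁, hn₁⟩ := eventually_atTop.1 (hAS (2 * C))
    refine ⟨e, n₀ + n₁, fun w y hw => ?_⟩
    obtain ⟨ha, hb⟩ := h w y (by omega)
    refine ⟨ha, ?_⟩
    rintro ⟨p, r₁, s₁, m, a, hacc, hps, hfit, b1, b2⟩
    obtain ⟨r, hrr, hr0, hrmin, hfit', hs, hreads⟩ := smallest hacc hfit
    have b1' : ((A.reads w y p r : ℕ) : ℝ) * ((a : ℝ) + 1) *
        ((m : ℝ) + ((Nat.log 2 w.length : ℝ) + 1)) ^ 4 ≤ 2 * C * ((w.length : ℝ) + 1) ^ 2 := by
      have h0 : 0 ≤ (A.reads w y p r₁ : ℝ) * ((a : ℝ) + 1) *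
        ((m : ℝ) + ((Nat.log 2 w.length : ℝ) + 1)) ^ 4 := by positivity
      have h1 : (A.reads w y p r : ℝ) * ((a : ℝ) + 1) *
        ((m : ℝ) + ((Nat.log 2 w.length : ℝ) + 1)) ^ 4 ≤ (A.reads w y p r₁ : ℝ) * ((a : ℝ) + 1) *
        ((m : ℝ) + ((Nat.log 2 w.length : ℝ) + 1)) ^ 4 := by
        have : ((A.reads w y p r : ℕ) : ℝ) ≤ ((A.reads w y p r₁ : ℕ) : ℝ) := by
          exact_mod_cast hreads
        gcongr
      nlinarith
    have b2' : ((s₁ : ℝ) + a + a) * ((m : ℝ) + ((Nat.log 2 w.length : ℝ) + 1)) ^ 4 ≤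
        2 * C * ((w.length : ℝ) + 1) := by
      have h0 : 0 ≤ (s₁ : ℝ) * ((m : ℝ) + ((Nat.log 2 w.length : ℝ) + 1)) ^ 4 := by positivity
      nlinarith
    obtain ⟨T, hT0, e0, e1, e2, e3', e3, e4⟩ := hn₁ w.length (by omega) (A.reads w y p r) s₁ m a a
      hs b1' b2'
    exact hb p r s₁ m a a T hr0 hrmin hps hfit' (fun _ => rfl) (fun h => absurd rfl h) hT0 e0 e1 e2
      e3' e3 e4
  · obtain ⟨e, n₀, h⟩ := setup hV hTR hP A 1 (by norm_num)
    obtain ⟨n₁, hn₁⟩ := eventually_atTop.1 (hAS C)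
    refine ⟨e, n₀ + n₁, fun w y hw => ?_⟩
    obtain ⟨ha, hb⟩ := h w y (by omega)
    refine ⟨ha, ?_⟩
    rintro ⟨p, r₁, s₁, m, a, g, hacc, hps, hfit, hgg, b1, b2⟩
    obtain ⟨r, hrr, hr0, hrmin, hfit', hs, hreads⟩ := smallest hacc hfit
    have b1' : ((A.reads w y p r : ℕ) : ℝ) * ((g : ℝ) + 1) *
        ((m : ℝ) + ((Nat.log 2 w.length : ℝ) + 1)) ^ 4 ≤ C * ((w.length : ℝ) + 1) ^ 2 := by
      refine le_trans ?_ b1
      have : ((A.reads w y p r : ℕ) : ℝ) ≤ ((A.reads w y p r₁ : ℕ) : ℝ) := by exact_mod_cast hreads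
      gcongr
    obtain ⟨T, hT0, e0, e1, e2, e3', e3, e4⟩ := hn₁ w.length (by omega) (A.reads w y p r) s₁ m a g
      hs b1' b2
    exact hb p r s₁ m a g T hr0 hrmin hps hfit' (fun h => absurd h one_ne_zero)
      (fun _ t ht => hgg t (ht.trans_le hrr)) hT0 e0 e1 e2 e3' e3 e4

end Pool.Agent.Helper47.UV
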